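import Pool.Agent.H2.Zer2

set_option autoImplicit false

namespace Pool.Agent.Results.MP_ad7422_al.NonabelianFitting

open Pool.Agent.H2.Zer

/-- The Fitting subgroup: the join of all normal nilpotent subgroups. -/
def fitting (G : Type) [Group G] : Subgroup G :=
  sSup {N : Subgroup G | N.Normal ∧ Group.IsNilpotent N}

/-- The number of conjugacy classes on which the class function `χ` vanishes. -/
noncomputable def zeros {G : Type} [Group G] (χ : G → ℂ) : ℕ :=
  Set.ncard {c : ConjClasses G | ∃ g : G, ConjClasses.mk g = c ∧ χ g = 0}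

theorem result : ∀ n : ℕ, ∃ (G : Type) (_ : Group G) (_ : Finite G),
    (∃ x ∈ fitting G, ∃ y ∈ fitting G, x * y ≠ y * x) ∧
    (∀ (V : Type) [AddCommGroup V] [Module ℂ V] [FiniteDimensional ℂ V]
      (ρ : Representation ℂ G V), ρ.IsIrreducible → zeros ρ.character ≤ 6) ∧
    n ≤ Nat.card G := by
  intro n
  refine ⟨GG n, inferInstance, inferInstance, ?_, ?_, ?_⟩
  · have h : (pr (k := n)).ker ≤ fitting (GG n) := le_sSup ⟨inferInstance, ker_nilp⟩
    refine ⟨⟨(1, 0, 0), 0, 0⟩, h rfl, ⟨(0, 1, 0), 0, 0⟩, h rfl, fun e => ?_⟩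
    have := congrFun (congrArg GG.z e) 0
    simp only [mul_def, A_zero, SS_zero, add_zero, zero_add, e0, if_true] at this
    revert this
    decide
  · intro V _ _ _ ρ hρ
    have hsub : {c : ConjClasses (GG n) | ∃ g : GG n, ConjClasses.mk g = c ∧ ρ.character g = 0}
        ⊆ (fun i : ZMod 7 => ConjClasses.mk (⟨0, 0, i⟩ : GG n)) ''
          ((Finset.univ.erase (0 : ZMod 7) : Finset (ZMod 7)) : Set (ZMod 7)) := by
      rintro _ ⟨⟨x, z, i⟩, rfl, hg⟩
      have hi : i ≠ 0 := by
        rintro rfl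
        exact nonvanishing ρ x z hg
      exact ⟨i, by simpa using hi, ConjClasses.mk_eq_mk_iff_isConj.mpr (conj_out ⟨x, z, i⟩ hi)⟩
    refine (Set.ncard_le_ncard hsub (Set.toFinite _)).trans ((Set.ncard_image_le).trans ?_)
    rw [Set.ncard_coe_finset]
    decide
  · rw [card_GG]
    have : n + 1 < 8 ^ (n + 1) := Nat.lt_pow_self (by norm_num)
    omega

end Pool.Agent.Results.MP_ad7422_al.NonabelianFitting
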